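import Mathlib

namespace Pool.Agent.Results.MP_0523aa_nt.HeightTwo

open Polynomial

/-- The height of an integer polynomial: the largest absolute value of a coefficient. -/
noncomputable def height (f : ℤ[X]) : ℕ := f.support.sup fun i => (f.coeff i).natAbs

/-- All coefficients have absolute value at most one. -/
def Flat (f : ℤ[X]) : Prop := ∀ n, |f.coeff n| ≤ 1

theorem flat_mul_expand {q : ℕ} (hq : 0 < q) {P : ℤ[X]} (hP : Flat P) (s : Finset ℕ)
    (e : ℕ → ℕ) (c : ℕ → ℤ) (hc : ∀ k, |c k| ≤ 1)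
    (he : ∀ k ∈ s, ∀ l ∈ s, e k ≡ e l [MOD q] → k = l) :
    Flat ((∑ k ∈ s, C (c k) * X ^ (e k)) * expand ℤ q P) := by
  intro N
  rw [Finset.sum_mul, Polynomial.finsetSum_coeff]
  have hterm : ∀ k, ((C (c k) * X ^ (e k)) * expand ℤ q P).coeff N =
      if e k ≤ N ∧ q ∣ (N - e k) then c k * P.coeff ((N - e k) / q) else 0 := by
    intro k
    rw [mul_assoc, coeff_C_mul, coeff_X_pow_mul']
    by_cases h : e k ≤ N
    · rw [if_pos h, coeff_expand hq]
      by_cases h2 : q ∣ N - e k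
      · rw [if_pos h2, if_pos ⟨h, h2⟩]
      · rw [if_neg h2, if_neg (fun h3 => h2 h3.2), mul_zero]
    · rw [if_neg h, if_neg (fun h3 => h h3.1), mul_zero]
  simp only [hterm]
  by_cases hex : ∃ k ∈ s, e k ≤ N ∧ q ∣ (N - e k)
  · obtain ⟨k, hk, hkN, hkq⟩ := hex
    rw [Finset.sum_eq_single k]
    · rw [if_pos ⟨hkN, hkq⟩, abs_mul]
      have h1 := hc k
      have h2 := hP ((N - e k) / q)
      calc |c k| * |P.coeff ((N - e k) / q)| ≤ 1 * 1 :=
            mul_le_mul h1 h2 (abs_nonneg _) zero_le_one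
        _ = 1 := one_mul 1
    · intro l hl hlk
      apply if_neg
      rintro ⟨hlN, hlq⟩
      apply hlk
      apply he l hl k hk
      have h1 : e l ≡ N [MOD q] := (Nat.modEq_iff_dvd' hlN).mpr hlq
      have h2 : e k ≡ N [MOD q] := (Nat.modEq_iff_dvd' hkN).mpr hkq
      exact h1.trans h2.symm
    · intro h
      exact absurd hk h
  · rw [Finset.sum_eq_zero]
    · simp
    · intro k hk
      apply if_neg
      intro h
      exact hex ⟨k, hk, h⟩

/-- `1 + x + ... + x^(q-1)`. -/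
noncomputable def C0 (q : ℕ) : ℤ[X] := ∑ k ∈ Finset.range q, X ^ k

/-- `1 - x + ... + x^(q-1)`. -/
noncomputable def D0 (q : ℕ) : ℤ[X] := ∑ k ∈ Finset.range q, (-X) ^ k

theorem C0_mul_D0 {q : ℕ} (hq : Odd q) : C0 q * D0 q = ∑ k ∈ Finset.range q, (X ^ 2) ^ k := by
  have h1 : C0 q * (X - 1) = X ^ q - 1 := geom_sum_mul X q
  have h2 : D0 q * (-X - 1) = (-X) ^ q - 1 := geom_sum_mul (-X) q
  have h3 : (∑ k ∈ Finset.range q, ((X : ℤ[X]) ^ 2) ^ k) * (X ^ 2 - 1) = (X ^ 2) ^ q - 1 :=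
    geom_sum_mul (X ^ 2) q
  rw [hq.neg_pow] at h2
  have hne : ((X : ℤ[X]) ^ 2 - 1) ≠ 0 := by
    have := X_pow_sub_C_ne_zero (R := ℤ) (n := 2) (by norm_num) 1
    simpa using this
  apply mul_right_cancel₀ hne
  rw [h3]
  have : C0 q * D0 q * (X ^ 2 - 1) = -((C0 q * (X - 1)) * (D0 q * (-X - 1))) := by ring
  rw [this, h1, h2]
  ring

/-- The possible factors at one level. -/
def Lev (q : ℕ) (A : ℤ[X]) : Prop := A = 1 ∨ A = C0 q ∨ A = D0 q ∨ A = C0 q * D0 q

theorem flat_lev {q : ℕ} (hq : Odd q) {A P : ℤ[X]} (hA : Lev q A) (hP : Flat P) :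
    Flat (A * expand ℤ q P) := by
  have hq0 : 0 < q := hq.pos
  rcases hA with rfl | rfl | rfl | rfl
  · have := flat_mul_expand hq0 hP {0} (fun _ => 0) (fun _ => 1) (by simp)
      (by intro k hk l hl _; simp at hk hl; rw [hk, hl])
    simpa using this
  · have := flat_mul_expand hq0 hP (Finset.range q) (fun k => k) (fun _ => 1) (by simp)
      (by
        intro k hk l hl h
        rw [Finset.mem_range] at hk hl
        exact Nat.ModEq.eq_of_lt_of_lt h hk hl)
    simpa [C0] using this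
  · have := flat_mul_expand hq0 hP (Finset.range q) (fun k => k) (fun k => (-1) ^ k)
      (by intro k; simp)
      (by
        intro k hk l hl h
        rw [Finset.mem_range] at hk hl
        exact Nat.ModEq.eq_of_lt_of_lt h hk hl)
    have h2 : D0 q = ∑ k ∈ Finset.range q, C ((-1 : ℤ) ^ k) * X ^ k := by
      unfold D0
      refine Finset.sum_congr rfl fun k _ => ?_
      rw [neg_pow]
      simp
    rw [h2]
    exact this
  · have := flat_mul_expand hq0 hP (Finset.range q) (fun k => 2 * k) (fun _ => 1) (by simp)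
      (by
        intro k hk l hl h
        rw [Finset.mem_range] at hk hl
        have h3 : k ≡ l [MOD q] := by
          apply Nat.ModEq.cancel_left_of_coprime (c := 2) _ h
          exact (Nat.coprime_two_right).mpr hq
        exact Nat.ModEq.eq_of_lt_of_lt h3 hk hl)
    rw [C0_mul_D0 hq]
    have h2 : (∑ k ∈ Finset.range q, ((X : ℤ[X]) ^ 2) ^ k) =
        ∑ k ∈ Finset.range q, C (1 : ℤ) * X ^ (2 * k) := by
      refine Finset.sum_congr rfl fun k _ => ?_
      rw [← pow_mul]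
      simp
    rw [h2]
    exact this

theorem flat_prod {q : ℕ} (hq : Odd q) : ∀ (b : ℕ) (v : ℕ → ℤ[X]), (∀ i, Lev q (v i)) →
    Flat (∏ i ∈ Finset.range b, expand ℤ (q ^ i) (v i)) := by
  intro b
  induction b with
  | zero =>
      intro v _ n
      simp only [Finset.range_zero, Finset.prod_empty, coeff_one]
      split_ifs <;> simp
  | succ b ih =>
      intro v hv
      rw [Finset.prod_range_succ']
      have h1 : (∏ i ∈ Finset.range b, expand ℤ (q ^ (i + 1)) (v (i + 1))) =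
          expand ℤ q (∏ i ∈ Finset.range b, expand ℤ (q ^ i) (v (i + 1))) := by
        rw [map_prod]
        refine Finset.prod_congr rfl fun i _ => ?_
        rw [expand_expand, pow_succ']
      rw [h1, pow_zero, expand_one, mul_comm]
      exact flat_lev hq (hv 0) (ih (fun i => v (i + 1)) (fun i => hv (i + 1)))

theorem split_dvd {p f P : ℤ[X]} (hp : Prime p) (h : f ∣ p * P) :
    (∃ g, g ∣ P ∧ f = p * g) ∨ f ∣ P := by
  obtain ⟨g, hg⟩ := h
  rcases hp.dvd_or_dvd (⟨P, hg.symm⟩ : p ∣ f * g) with ⟨r, hr⟩ | ⟨r, hr⟩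
  · left
    refine ⟨r, ⟨g, ?_⟩, hr⟩
    apply mul_left_cancel₀ hp.ne_zero
    rw [hg, hr]
    ring
  · right
    refine ⟨r, ?_⟩
    apply mul_left_cancel₀ hp.ne_zero
    rw [hg, hr]
    ring

theorem prime_C {q : ℕ} (hq : q.Prime) (i : ℕ) : Prime (expand ℤ (q ^ i) (C0 q)) := by
  have h1 : expand ℤ (q ^ i) (C0 q) = cyclotomic (q ^ (i + 1)) ℤ := by
    rw [cyclotomic_prime_pow_eq_geom_sum hq]
    unfold C0
    rw [map_sum]
    refine Finset.sum_congr rfl fun k _ => ?_
    rw [map_pow, expand_X]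
  rw [h1]
  exact (cyclotomic.irreducible (pow_pos hq.pos _)).prime

theorem prime_D {q : ℕ} (hq : q.Prime) (hodd : Odd q) (i : ℕ) :
    Prime (expand ℤ (q ^ i) (D0 q)) := by
  have h1 : expand ℤ (q ^ i) (D0 q) = algEquivAevalNegX (expand ℤ (q ^ i) (C0 q)) := by
    unfold C0 D0
    rw [map_sum, map_sum, map_sum]
    refine Finset.sum_congr rfl fun k _ => ?_
    rw [map_pow, map_neg, expand_X, map_pow, expand_X, map_pow, map_pow]
    have : algEquivAevalNegX (X : ℤ[X]) = -X := by simp [algEquivAevalNegX]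
    rw [this, (hodd.pow).neg_pow]
  rw [h1]
  exact (MulEquiv.prime_iff (algEquivAevalNegX (R := ℤ)).toMulEquiv).mpr (prime_C hq i)

theorem exists_levels {q : ℕ} (hq : q.Prime) (hodd : Odd q) : ∀ (b : ℕ) (f : ℤ[X]),
    f ∣ ∏ i ∈ Finset.range b, expand ℤ (q ^ i) (C0 q * D0 q) →
    ∃ (u : ℤ[X]) (v : ℕ → ℤ[X]), IsUnit u ∧ (∀ i, Lev q (v i)) ∧
      f = u * ∏ i ∈ Finset.range b, expand ℤ (q ^ i) (v i) := by
  intro b
  induction b with
  | zero =>
      intro f hf
      refine ⟨f, fun _ => 1, ?_, fun _ => Or.inl rfl, by simp⟩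
      simpa [isUnit_iff_dvd_one] using hf
  | succ b ih =>
      intro f hf
      rw [Finset.prod_range_succ, map_mul, mul_comm, mul_assoc] at hf
      have key : ∃ w g, Lev q w ∧ g ∣ ∏ i ∈ Finset.range b, expand ℤ (q ^ i) (C0 q * D0 q) ∧
          f = expand ℤ (q ^ b) w * g := by
        rcases split_dvd (prime_C hq b) hf with ⟨g, hg, rfl⟩ | hg
        · rcases split_dvd (prime_D hq hodd b) hg with ⟨h, hh, rfl⟩ | hh
          · exact ⟨C0 q * D0 q, h, Or.inr (Or.inr (Or.inr rfl)), hh, by rw [map_mul]; ring⟩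
          · exact ⟨C0 q, g, Or.inr (Or.inl rfl), hh, rfl⟩
        · rcases split_dvd (prime_D hq hodd b) hg with ⟨h, hh, rfl⟩ | hh
          · exact ⟨D0 q, h, Or.inr (Or.inr (Or.inl rfl)), hh, rfl⟩
          · exact ⟨1, f, Or.inl rfl, hh, by simp⟩
      obtain ⟨w, g, hw, hg, rfl⟩ := key
      obtain ⟨u, v, hu, hv, rfl⟩ := ih g hg
      refine ⟨u, fun i => if i = b then w else v i, hu, ?_, ?_⟩
      · intro i
        dsimp only
        split_ifs
        · exact hw
        · exact hv i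
      · rw [Finset.prod_range_succ]
        dsimp only
        rw [if_pos rfl]
        have : ∏ i ∈ Finset.range b, expand ℤ (q ^ i) (if i = b then w else v i) =
            ∏ i ∈ Finset.range b, expand ℤ (q ^ i) (v i) := by
          refine Finset.prod_congr rfl fun i hi => ?_
          rw [if_neg (Finset.mem_range.mp hi).ne]
        rw [this]
        ring

theorem factorization {q : ℕ} (hodd : Odd q) (b : ℕ) :
    (X : ℤ[X]) ^ (2 * q ^ b) - 1 =
      (X - 1) * ((X + 1) * ∏ i ∈ Finset.range b, expand ℤ (q ^ i) (C0 q * D0 q)) := by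
  induction b with
  | zero => simp; ring
  | succ b ih =>
      rw [Finset.prod_range_succ]
      have h1 : (X : ℤ[X]) ^ (2 * q ^ (b + 1)) - 1 =
          (X ^ (2 * q ^ b) - 1) * expand ℤ (q ^ b) (C0 q * D0 q) := by
        rw [C0_mul_D0 hodd, map_sum]
        have h2 : (∑ k ∈ Finset.range q, expand ℤ (q ^ b) (((X : ℤ[X]) ^ 2) ^ k)) =
            ∑ k ∈ Finset.range q, ((X : ℤ[X]) ^ (2 * q ^ b)) ^ k := by
          refine Finset.sum_congr rfl fun k _ => ?_
          rw [map_pow, map_pow, expand_X, ← pow_mul, ← pow_mul, ← pow_mul]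
          congr 1
          ring
        rw [h2, mul_comm ((X : ℤ[X]) ^ (2 * q ^ b) - 1), geom_sum_mul, ← pow_mul]
        congr 2
        ring
      rw [h1, ih]
      ring

theorem coeff_le_two {q : ℕ} (hq : q.Prime) (hodd : Odd q) (b : ℕ) {f : ℤ[X]}
    (hf : f ∣ X ^ (2 * q ^ b) - 1) (n : ℕ) : |f.coeff n| ≤ 2 := by
  rw [factorization hodd] at hf
  have hp1 : Prime (X - 1 : ℤ[X]) := by simpa using prime_X_sub_C (1 : ℤ)
  have hp2 : Prime (X + 1 : ℤ[X]) := by simpa using prime_X_sub_C (-1 : ℤ)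
  have key : ∃ g, g ∣ ∏ i ∈ Finset.range b, expand ℤ (q ^ i) (C0 q * D0 q) ∧
      (f = g ∨ f = (X - 1) * g ∨ f = (X + 1) * g ∨ f = (X - 1) * ((X + 1) * g)) := by
    rcases split_dvd hp1 hf with ⟨g, hg, rfl⟩ | hg
    · rcases split_dvd hp2 hg with ⟨h, hh, rfl⟩ | hh
      · exact ⟨h, hh, Or.inr (Or.inr (Or.inr rfl))⟩
      · exact ⟨g, hh, Or.inr (Or.inl rfl)⟩
    · rcases split_dvd hp2 hg with ⟨h, hh, rfl⟩ | hh
      · exact ⟨h, hh, Or.inr (Or.inr (Or.inl rfl))⟩
      · exact ⟨f, hh, Or.inl rfl⟩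
  obtain ⟨g, hg, hfg⟩ := key
  obtain ⟨u, v, hu, hv, hgu⟩ := exists_levels hq hodd b g hg
  have hflat : Flat g := by
    intro m
    obtain ⟨r, hr, rfl⟩ := Polynomial.isUnit_iff.mp hu
    rw [hgu, coeff_C_mul, abs_mul, Int.isUnit_iff_abs_eq.mp hr, one_mul]
    exact flat_prod hodd b v hv m
  have hX : ∀ (h : ℤ[X]) m k, Flat h → |(X ^ k * h).coeff m| ≤ 1 := by
    intro h m k hh
    rw [coeff_X_pow_mul']
    split_ifs
    · exact hh _
    · simp
  rcases hfg with rfl | rfl | rfl | rfl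
  · exact (hflat n).trans (by norm_num)
  · have : (X - 1) * g = X ^ 1 * g - g := by ring
    rw [this, coeff_sub]
    have h1 := hX g n 1 hflat
    have h2 := hflat n
    calc |(X ^ 1 * g).coeff n - g.coeff n| ≤ |(X ^ 1 * g).coeff n| + |g.coeff n| := abs_sub _ _
      _ ≤ 2 := by linarith
  · have : (X + 1) * g = X ^ 1 * g + g := by ring
    rw [this, coeff_add]
    have h1 := hX g n 1 hflat
    have h2 := hflat n
    calc |(X ^ 1 * g).coeff n + g.coeff n| ≤ |(X ^ 1 * g).coeff n| + |g.coeff n| := abs_add_le _ _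
      _ ≤ 2 := by linarith
  · have : (X - 1) * ((X + 1) * g) = X ^ 2 * g - g := by ring
    rw [this, coeff_sub]
    have h1 := hX g n 2 hflat
    have h2 := hflat n
    calc |(X ^ 2 * g).coeff n - g.coeff n| ≤ |(X ^ 2 * g).coeff n| + |g.coeff n| := abs_sub _ _
      _ ≤ 2 := by linarith

/-- For every odd prime `q` and every `b ≥ 1` the largest height of a divisor of
`x^(2 q^b) - 1` in `ℤ[x]` is exactly two. -/
theorem result (q b : ℕ) (hq : q.Prime) (hodd : Odd q) (hb : 1 ≤ b) :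
    IsGreatest {h : ℕ | ∃ f : ℤ[X], f ∣ X ^ (2 * q ^ b) - 1 ∧ height f = h} 2 := by
  have hup : ∀ f : ℤ[X], f ∣ X ^ (2 * q ^ b) - 1 → height f ≤ 2 := by
    intro f hf
    unfold height
    apply Finset.sup_le
    intro i _
    have h1 := coeff_le_two hq hodd b hf i
    rw [Int.abs_eq_natAbs] at h1
    exact_mod_cast h1
  constructor
  · refine ⟨(X + 1) * ∑ k ∈ Finset.range (q ^ b), X ^ k, ?_, ?_⟩
    · have h1 : ((∑ k ∈ Finset.range (q ^ b), (X : ℤ[X]) ^ k)) * (X - 1) = X ^ (q ^ b) - 1 :=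
        geom_sum_mul X _
      have h2 : (X : ℤ[X]) + 1 ∣ X ^ (q ^ b) + 1 := by
        have := (hodd.pow (n := b)).add_dvd_pow_add_pow (X : ℤ[X]) 1
        simpa using this
      have h3 : (∑ k ∈ Finset.range (q ^ b), (X : ℤ[X]) ^ k) ∣ X ^ (q ^ b) - 1 :=
        ⟨_, h1.symm⟩
      have h4 : (X : ℤ[X]) ^ (2 * q ^ b) - 1 = (X ^ (q ^ b) + 1) * (X ^ (q ^ b) - 1) := by
        ring
      rw [h4]
      exact mul_dvd_mul h2 h3
    · apply le_antisymm
      · apply hup
        have h1 : ((∑ k ∈ Finset.range (q ^ b), (X : ℤ[X]) ^ k)) * (X - 1) = X ^ (q ^ b) - 1 :=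
          geom_sum_mul X _
        have h2 : (X : ℤ[X]) + 1 ∣ X ^ (q ^ b) + 1 := by
          have := (hodd.pow (n := b)).add_dvd_pow_add_pow (X : ℤ[X]) 1
          simpa using this
        have h3 : (∑ k ∈ Finset.range (q ^ b), (X : ℤ[X]) ^ k) ∣ X ^ (q ^ b) - 1 :=
          ⟨_, h1.symm⟩
        have h4 : (X : ℤ[X]) ^ (2 * q ^ b) - 1 = (X ^ (q ^ b) + 1) * (X ^ (q ^ b) - 1) := by
          ring
        rw [h4]
        exact mul_dvd_mul h2 h3
      · have hqb : 1 < q ^ b := Nat.one_lt_pow (by omega) hq.one_lt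
        have hc : ((X + 1) * ∑ k ∈ Finset.range (q ^ b), (X : ℤ[X]) ^ k).coeff 1 = 2 := by
          have : ((X : ℤ[X]) + 1) * ∑ k ∈ Finset.range (q ^ b), (X : ℤ[X]) ^ k =
              X ^ 1 * (∑ k ∈ Finset.range (q ^ b), (X : ℤ[X]) ^ k) +
                ∑ k ∈ Finset.range (q ^ b), (X : ℤ[X]) ^ k := by ring
          rw [this, coeff_add, coeff_X_pow_mul', if_pos le_rfl, finsetSum_coeff,
            finsetSum_coeff]
          simp only [coeff_X_pow]
          rw [Finset.sum_ite_eq, Finset.sum_ite_eq, if_pos, if_pos]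
          · norm_num
          · exact Finset.mem_range.mpr hqb
          · exact Finset.mem_range.mpr (by omega)
        have : (2 : ℕ) = ((((X + 1) * ∑ k ∈ Finset.range (q ^ b), (X : ℤ[X]) ^ k)).coeff 1).natAbs := by
          rw [hc]; rfl
        rw [this]
        unfold height
        exact Finset.le_sup (f := fun i =>
          (((X + 1) * ∑ k ∈ Finset.range (q ^ b), (X : ℤ[X]) ^ k).coeff i).natAbs)
          (Polynomial.mem_support_iff.mpr (by rw [hc]; norm_num))
  · rintro h ⟨f, hf, rfl⟩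
    exact hup f hf

end Pool.Agent.Results.MP_0523aa_nt.HeightTwo
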